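import Pool.Agent.RSCubic.Cyc

set_option autoImplicit false

namespace Pool.Agent.Results.MP_b38f68_co.CubicRotSymBent

open Pool.Agent.RSCubic

lemma even_of_sq (k : ℤ) (n : ℕ) (h : k ^ 2 = (2 : ℤ) ^ n) : Even n := by
  have h1 : k.natAbs ^ 2 = 2 ^ n := by
    have := congrArg Int.natAbs h
    rw [Int.natAbs_pow, Int.natAbs_pow] at this
    simpa using this
  have h2 : k.natAbs ∣ 2 ^ n := by
    rw [← h1]; exact Dvd.intro_left (k.natAbs ^ 1) (by ring)
  obtain ⟨j, _, hj⟩ := (Nat.dvd_prime_pow Nat.prime_two).mp h2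
  rw [hj, ← pow_mul] at h1
  have := Nat.pow_right_injective (le_refl 2) h1
  exact ⟨j, by omega⟩

/-- Every rotation symmetric bent function of degree at most three in `n` variables contains
all the quadratic monomials `x_i x_{i + n/2}` (and `n` is even). -/
theorem result (n : ℕ) (f : (Fin n → ZMod 2) → ZMod 2) (c : Finset (Fin n) → ZMod 2)
    (hdeg : ∀ S : Finset (Fin n), c S ≠ 0 → S.card ≤ 3)
    (hanf : ∀ x : Fin n → ZMod 2, f x = ∑ S : Finset (Fin n), c S * ∏ i ∈ S, x i)
    (hrot : ∀ x : Fin n → ZMod 2, f (x ∘ finRotate n) = f x)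
    (hbent : ∀ a : Fin n → ZMod 2,
      (∑ x : Fin n → ZMod 2, (-1 : ℤ) ^ (f x + ∑ i, a i * x i).val) ^ 2 = (2 : ℤ) ^ n) :
    Even n ∧ ∀ i j : Fin n, (j : ℕ) = i + n / 2 → c {i, j} = 1 := by
  have hev : Even n := even_of_sq _ n (hbent 0)
  refine ⟨hev, fun i j hij => ?_⟩
  obtain ⟨m, hm⟩ := hev
  rcases n with _ | N
  · exact i.elim0
  have hj : j = (show ZMod (N + 1) from i) + ((m : ℕ) : ZMod (N + 1)) := by
    have h1 := val_add_m (N + 1) m hm (show ZMod (N + 1) from i)
    have h2 : ZMod.val (n := N + 1) i = (i : ℕ) := rfl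
    have h3 : (j : ℕ) < N + 1 := j.2
    have h4 : (j : ℕ) = (i : ℕ) + m := by omega
    rw [if_pos (by show ZMod.val (n := N + 1) i < m; rw [h2]; omega)] at h1
    apply Fin.ext
    rw [h4]
    exact h1.symm
  have hmain := zmod_main (N + 1) m hm f c hdeg hanf (by
    intro x
    rw [← hrot x]
    congr 1
    funext k
    show x (k + 1) = x (finRotate (N + 1) k)
    rw [finRotate_apply]
    rfl) hbent (show ZMod (N + 1) from i)
  rw [hj]
  exact hmain

end Pool.Agent.Results.MP_b38f68_co.CubicRotSymBent
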