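import Pool.Agent.Helper76.RSB.Fin

set_option autoImplicit false

namespace Pool.Agent.Results.MP_b38f68_co.HalfShiftMonomial

open Pool.Agent.RSCubic Pool.Agent.Helper76.RSB

/-- For `n = 2q, 4q, 6q`, `q` a power of an odd prime, the algebraic normal form of every rotation
symmetric bent function in `n` variables contains a nonconstant monomial that is invariant under
the shift by `n/2` (so of even degree). -/
theorem result (p a n : ℕ) (hp : p.Prime) (hp2 : p ≠ 2)
    (hn : n = 2 * p ^ a ∨ n = 4 * p ^ a ∨ n = 6 * p ^ a)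
    (f : (Fin n → ZMod 2) → ZMod 2) (c : Finset (Fin n) → ZMod 2)
    (hanf : ∀ x : Fin n → ZMod 2, f x = ∑ S : Finset (Fin n), c S * ∏ i ∈ S, x i)
    (hrot : ∀ x : Fin n → ZMod 2, f (x ∘ finRotate n) = f x)
    (hbent : ∀ b : Fin n → ZMod 2,
      (∑ x : Fin n → ZMod 2, (-1 : ℤ) ^ (f x + ∑ i, b i * x i).val) ^ 2 = (2 : ℤ) ^ n) :
    ∃ S : Finset (Fin n), S.Nonempty ∧ Even S.card ∧ c S ≠ 0 ∧
      ∀ i j : Fin n, i ∈ S → ((j : ℕ) = i + n / 2 ∨ (i : ℕ) = j + n / 2) → j ∈ S := by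
  obtain ⟨h, hh, hn2⟩ : ∃ h, (h = 1 ∨ h = 2 ∨ h = 3) ∧ n = 2 * (h * p ^ a) := by
    rcases hn with h1 | h1 | h1
    · exact ⟨1, by simp, by rw [h1]; ring⟩
    · exact ⟨2, by simp, by rw [h1]; ring⟩
    · exact ⟨3, by simp, by rw [h1]; ring⟩
  rcases n with _ | N
  · exfalso
    have h1 : 0 < p ^ a := pow_pos hp.pos a
    have h2 : 0 < h * p ^ a := Nat.mul_pos (by omega) h1
    omega
  obtain ⟨S, hS, hSe, hcS, hinv⟩ := zmod_result (N + 1) p a h hp hp2 hh hn2 f c hanf (by
    intro x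
    have h0 : sh (N + 1) x = (fun k : Fin (N + 1) => x (finRotate (N + 1) k)) := by
      funext k
      have h9 : finRotate (N + 1) (show Fin (N + 1) from k) = (show Fin (N + 1) from k) + 1 :=
        finRotate_apply _
      exact (congrArg (fun t : Fin (N + 1) => x t) h9).symm
    rw [h0]
    exact hrot x) hbent
  refine ⟨S, hS, hSe, hcS, ?_⟩
  intro i j hi hij
  have hm : N + 1 = h * p ^ a + h * p ^ a := by omega
  have hhalf : (N + 1) / 2 = h * p ^ a := by omega
  have h1 := val_add_m (N + 1) (h * p ^ a) hm (show ZMod (N + 1) from i)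
  have h2 : ZMod.val (n := N + 1) i = (i : ℕ) := rfl
  have h3 : (j : ℕ) < N + 1 := j.2
  have h4 : (i : ℕ) < N + 1 := i.2
  rw [hhalf] at hij
  have hj : j = (show ZMod (N + 1) from i) + ((h * p ^ a : ℕ) : ZMod (N + 1)) := by
    apply Fin.ext
    show (j : ℕ) = ZMod.val (n := N + 1)
      ((show ZMod (N + 1) from i) + ((h * p ^ a : ℕ) : ZMod (N + 1)))
    rw [h1]
    have h5 : ZMod.val (n := N + 1) (show ZMod (N + 1) from i) = (i : ℕ) := rfl
    rw [h5]
    split_ifs with h6 <;> omega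
  rw [hj]
  exact hinv i hi

end Pool.Agent.Results.MP_b38f68_co.HalfShiftMonomial
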